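import Pool.Agent.Y661.NU.Stm

/-! Near uniqueness on `ℤ²`: assembly -/

set_option autoImplicit false

open MeasureTheory Filter

namespace Pool.Agent.Y661.NU.Fin

open H974

/-- the bonds with lower end in the box of radius `n` on which `σ`, `τ` disagree -/
def Dis (σ τ : Vtx → ℝ) (n : ℕ) : Set Edg :=
  {e | src e ∈ Bf n ∧ σ (src e) * σ (tgt e) ≠ τ (src e) * τ (tgt e)}

theorem gsc_sh (J : Edg → ℝ) (σ : Vtx → ℝ) (h : GSC J σ) (v : Vtx) :
    GSC (sh v J) (fun w => σ (w + v)) := by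
  classical
  refine ⟨fun w => h.1 _, fun A hA => ?_⟩
  have h2 := h.2 (A.map (Equiv.addRight v).toEmbedding) (by simpa using hA)
  refine lt_of_lt_of_le h2 (le_of_eq ?_)
  set φ : Edg ≃ Edg := {
    toFun := fun e => (e.1 + v.1, e.2.1 + v.2, e.2.2)
    invFun := fun e => (e.1 - v.1, e.2.1 - v.2, e.2.2)
    left_inv := fun e => by simp
    right_inv := fun e => by simp } with hφ
  have hs : ∀ e, src (φ e) = src e + v := fun e => rfl
  have ht : ∀ e, tgt (φ e) = tgt e + v := by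
    rintro ⟨x, y, _ | _⟩
    · simp only [hφ, Equiv.coe_fn_mk, tgt_false, Prod.ext_iff, Prod.fst_add, Prod.snd_add]
      constructor
      · trivial
      · ring
    · simp only [hφ, Equiv.coe_fn_mk, tgt_true, Prod.ext_iff, Prod.fst_add, Prod.snd_add]
      constructor
      · ring
      · trivial
  have hmem : ∀ w : Vtx, w + v ∈ A.map (Equiv.addRight v).toEmbedding ↔ w ∈ A := by
    intro w
    rw [Finset.mem_map]
    constructor
    · rintro ⟨a, ha, h⟩
      have : a = w := by simpa using h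
      rwa [← this]
    · intro hw
      exact ⟨w, hw, rfl⟩
  symm
  refine (finsum_mem_eq_of_bijOn φ ⟨?_, φ.injective.injOn, ?_⟩ ?_)
  · intro e he
    unfold cutE at he ⊢
    simp only [Set.mem_setOf_eq, hs, ht, hmem] at he ⊢
    exact he
  · intro e he
    refine ⟨φ.symm e, ?_, by simp⟩
    have h3 : φ (φ.symm e) = e := by simp
    rw [← h3] at he
    unfold cutE at he ⊢
    simp only [Set.mem_setOf_eq, hs, ht, hmem] at he ⊢
    exact he
  · intro e _
    show J _ * (σ (src e + v) * σ (tgt e + v)) = J (φ e) * (σ (src (φ e)) * σ (tgt (φ e)))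
    rw [hs, ht]
    rfl

theorem inj_of_sep {J : Edg → ℝ} {K : ℝ} {M : ℕ} (hK : 1 ≤ K) (h : Sep J K M) :
    Inj (fun e => |J e|) M := by
  intro e he f hf hef heq
  have h0 := abs_nonneg (J e)
  simp only at heq
  rcases h e he f hf hef with h1 | h1
  · rw [← heq] at h1
    nlinarith
  · rw [← heq] at h1
    nlinarith

theorem good_site (hFOR : S_FOR) (hSAT : S_SAT) {J : Edg → ℝ} {K t : ℝ} {M : ℕ} (hK : 1 ≤ K)
    (hcard : ((boxE (M + 1)).card : ℝ) ≤ K) (v : Vtx)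
    (h1 : Ev M (Fo (fun e => |sh v J e|) t M)) (h2 : Sep (sh v J) K M) {σ τ : Vtx → ℝ}
    (hσ : GSC J σ) (hτ : GSC J τ) (e : Edg) (he : src e = v) :
    σ (src e) * σ (tgt e) = τ (src e) * τ (tgt e) := by
  have hi := inj_of_sep hK h2
  have hσ' := gsc_sh J σ hσ v
  have hτ' := gsc_sh J τ hτ v
  set w : Vtx := if e.2.2 then (1, 0) else (0, 1) with hw
  have hw1 : w ∈ Bx 1 := by
    rw [hw]
    unfold Bx
    split_ifs <;> simp
  have hR := hFOR _ t M hi h1 (0, 0) w (by unfold Bx; simp) hw1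
  have h3 := hSAT (sh v J) K M hcard h2 _ _ hσ' hτ' (0, 0) w hR
  have e1 : (0, 0) + v = src e := by
    rw [he]
    simp
  have e2 : w + v = tgt e := by
    rw [← he, hw]
    obtain ⟨x, y, _ | _⟩ := e
    · simp [add_comm]
    · simp [add_comm]
  simp only [e1, e2] at h3
  exact h3

theorem near (hFOR : S_FOR) (hPER : S_PER) (hLAW : S_LAW) (hMED : S_MED) (hSEP : S_SEP)
    (hSAT : S_SAT) (hLLN : S_LLN) (ε : ℝ) (hε : 0 < ε) : ∃ K δ : ℝ, 0 < K ∧ 0 < δ ∧
    ∀ (μ : Measure ℝ) [IsProbabilityMeasure μ], (∀ x, μ {x} = 0) →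
    (μ.prod μ).real {p : ℝ × ℝ | |p.1| ≤ K * |p.2| ∧ |p.2| ≤ K * |p.1|} ≤ δ →
    ∀ᵐ J ∂(PJ μ), ∀ᶠ n : ℕ in atTop, ∀ σ τ : Vtx → ℝ, GSC J σ → GSC J τ →
      ((Dis σ τ n).ncard : ℝ) ≤ ε * (2 * (2 * (n : ℝ) + 1) ^ 2) := by
  classical
  obtain ⟨M, hM⟩ := hPER (ε / 4) (by positivity)
  set K : ℝ := ((boxE (M + 1)).card : ℝ) + 1 with hKdef
  have hK1 : 1 ≤ K := by
    have : (0 : ℝ) ≤ ((boxE (M + 1)).card : ℝ) := Nat.cast_nonneg _
    linarith
  have hcard : ((boxE (M + 1)).card : ℝ) ≤ K := by linarith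
  refine ⟨K, ε / (4 * K ^ 2), by linarith, by positivity, ?_⟩
  intro μ _ hat hδ
  obtain ⟨t, ht⟩ := hMED μ hat
  obtain ⟨m1, l1⟩ := hLAW μ t ht M (Ev M)
  obtain ⟨m2, l2⟩ := hSEP μ K _ hδ M
  set A1 : Set (Edg → ℝ) := {J | Ev M (Fo (fun e => |J e|) t M)} with hA1
  set A2 : Set (Edg → ℝ) := {J | Sep J K M} with hA2
  set B : Set (Edg → ℝ) := (A1 ∩ A2)ᶜ with hB
  have hBm : MeasurableSet B := (m1.inter m2).compl
  have hBl : ∀ J J' : Edg → ℝ, (∀ e ∈ boxE (M + 1), J e = J' e) → J ∈ B → J' ∈ B := by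
    intro J J' hJ hJB hcon
    apply hJB
    obtain ⟨c1, c2⟩ := hcon
    have hsub : boxE M ⊆ boxE (M + 1) := by
      unfold boxE
      refine RE_subset ?_ ?_ ?_ ?_ <;> push_cast <;> omega
    constructor
    · have h3 : Fo (fun e => |J e|) t M = Fo (fun e => |J' e|) t M := by
        unfold Fo
        refine Finset.filter_congr fun e he => ?_
        show t < |J e| ↔ t < |J' e|
        rw [hJ e (hsub he)]
      show Ev M (Fo (fun e => |J e|) t M)
      rw [h3]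
      exact c1
    · intro e he f hf hef
      have := c2 e he f hf hef
      rw [hJ e he, hJ f hf]
      exact this
  have hPB : (PJ μ).real B ≤ ε / 2 := by
    have h1 : B ⊆ A1ᶜ ∪ A2ᶜ := by
      rw [hB, Set.compl_inter]
    refine (measureReal_mono h1 (measure_ne_top _ _)).trans ((measureReal_union_le _ _).trans ?_)
    have h2 : (PJ μ).real A1ᶜ ≤ ε / 4 := by
      rw [probReal_compl_eq_one_sub m1, l1]
      linarith
    have h3 : (PJ μ).real A2ᶜ ≤ ε / 4 := by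
      have h4 : A2ᶜ = {J : Edg → ℝ | ¬ Sep J K M} := rfl
      rw [h4]
      refine l2.trans ?_
      have h5 : ((boxE (M + 1)).card : ℝ) ^ 2 ≤ K ^ 2 := by gcongr
      have h6 : (0 : ℝ) < K ^ 2 := by positivity
      calc ((boxE (M + 1)).card : ℝ) ^ 2 * (ε / (4 * K ^ 2)) ≤ K ^ 2 * (ε / (4 * K ^ 2)) :=
            mul_le_mul_of_nonneg_right h5 (by positivity)
        _ = ε / 4 := by field_simp
    linarith
  filter_upwards [hLLN μ M B hBm hBl (ε / 2) (by positivity)] with J hJ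
  filter_upwards [hJ] with n hn
  intro σ τ hσ hτ
  have hfin : ({v ∈ (Bf n : Set Vtx) | sh v J ∈ B}).Finite :=
    (Bf n).finite_toSet.subset fun v hv => hv.1
  have hsub : Dis σ τ n ⊆ (fun p : Vtx × Bool => ((p.1.1, p.1.2, p.2) : Edg)) ''
      ({v ∈ (Bf n : Set Vtx) | sh v J ∈ B} ×ˢ (Set.univ : Set Bool)) := by
    intro e he
    obtain ⟨h1, h2⟩ := he
    refine ⟨(src e, e.2.2), ⟨⟨h1, ?_⟩, trivial⟩, rfl⟩
    by_contra h3
    apply h2
    rw [hB, Set.notMem_compl_iff] at h3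
    exact good_site hFOR hSAT hK1 hcard (src e) h3.1 h3.2 hσ hτ e rfl
  have h4 : (Dis σ τ n).ncard ≤ 2 * ({v ∈ (Bf n : Set Vtx) | sh v J ∈ B}).ncard := by
    refine (Set.ncard_le_ncard hsub ((hfin.prod Set.finite_univ).image _)).trans ?_
    refine (Set.ncard_image_le (hfin.prod Set.finite_univ)).trans ?_
    rw [Set.ncard_prod, Set.ncard_univ, Nat.card_eq_fintype_card, Fintype.card_bool, mul_comm]
  have h5 : ((Dis σ τ n).ncard : ℝ) ≤ 2 * (({v ∈ (Bf n : Set Vtx) | sh v J ∈ B}).ncard : ℝ) := by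
    exact_mod_cast h4
  have h6 : (0 : ℝ) ≤ (2 * (n : ℝ) + 1) ^ 2 := by positivity
  have h7 : ((PJ μ).real B + ε / 2) * (2 * (n : ℝ) + 1) ^ 2 ≤ ε * (2 * (n : ℝ) + 1) ^ 2 :=
    mul_le_mul_of_nonneg_right (by linarith) h6
  linarith

end Pool.Agent.Y661.NU.Fin
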