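import Pool.Agent.Y661.NU.Fin

/-! Near uniqueness on `ℤ²`: translation to the lattice of the problem -/

set_option autoImplicit false

open MeasureTheory Filter

namespace Pool.Agent.Y661.NU.Res

open H974

/-- the bonds of the problem -/
abbrev Bond : Type := (Fin 2 → ℤ) × Fin 2

/-- `σ` is an infinite-volume ground state for the couplings `J`: every change at finitely many
sites (at least one) increases the energy -/
def IsGroundState (J : Bond → ℝ) (σ : (Fin 2 → ℤ) → ℝ) : Prop :=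
  (∀ x, σ x = 1 ∨ σ x = -1) ∧
  ∀ ρ : (Fin 2 → ℤ) → ℝ, (∀ x, ρ x = 1 ∨ ρ x = -1) → {x | ρ x ≠ σ x}.Finite → ρ ≠ σ →
    0 < ∑ᶠ e : Bond, J e * (σ e.1 * σ (e.1 + (Pi.single e.2 (1 : ℤ) : Fin 2 → ℤ))
      - ρ e.1 * ρ (e.1 + (Pi.single e.2 (1 : ℤ) : Fin 2 → ℤ)))

/-- the bonds of the box of radius `n` (lower ends `|v| ≤ n`) on which `σ` and `τ` disagree -/
def disagree (σ τ : (Fin 2 → ℤ) → ℝ) (n : ℕ) : Set Bond :=
  {e | (∀ i, |e.1 i| ≤ n) ∧ σ e.1 * σ (e.1 + (Pi.single e.2 (1 : ℤ) : Fin 2 → ℤ)) ≠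
    τ e.1 * τ (e.1 + (Pi.single e.2 (1 : ℤ) : Fin 2 → ℤ))}

/-- sites -/
def cv (v : Vtx) : Fin 2 → ℤ := ![v.1, v.2]

/-- edges -/
def ce : Edg ≃ Bond where
  toFun e := (![e.1, e.2.1], if e.2.2 then 0 else 1)
  invFun b := (b.1 0, b.1 1, decide (b.2 = 0))
  left_inv := by
    rintro ⟨x, y, _ | _⟩ <;> simp
  right_inv := by
    rintro ⟨v, i⟩
    refine Prod.ext ?_ ?_
    · funext j
      fin_cases j <;> rfl
    · fin_cases i <;> rfl

theorem ce_src (e : Edg) : (ce e).1 = cv (src e) := rfl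

theorem ce_tgt (e : Edg) : (ce e).1 + (Pi.single (ce e).2 (1 : ℤ) : Fin 2 → ℤ) = cv (tgt e) := by
  obtain ⟨x, y, _ | _⟩ := e
  · funext j
    fin_cases j <;> simp [ce, cv]
  · funext j
    fin_cases j <;> simp [ce, cv]

theorem cv_inj : Function.Injective cv := by
  intro u v h
  have h0 := congrFun h 0
  have h1 := congrFun h 1
  exact Prod.ext h0 h1

theorem cutE_finite (A : Finset Vtx) : (cutE A).Finite := by
  classical
  have h1 : cutE A ⊆ (fun p : Vtx × Bool => ((p.1.1, p.1.2, p.2) : Edg)) '' ((A : Set Vtx) ×ˢ Set.univ) ∪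
      ((fun p : Vtx × Bool => (if p.2 then (p.1.1 - 1, p.1.2, true) else (p.1.1, p.1.2 - 1, false) :
        Edg)) '' ((A : Set Vtx) ×ˢ Set.univ)) := by
    rintro ⟨x, y, b⟩ he
    rcases he with ⟨h1, -⟩ | ⟨-, h2⟩
    · left
      exact ⟨((x, y), b), ⟨h1, trivial⟩, rfl⟩
    · right
      refine ⟨(tgt (x, y, b), b), ⟨h2, trivial⟩, ?_⟩
      cases b <;> simp
  exact (((A.finite_toSet.prod Set.finite_univ).image _).union
    ((A.finite_toSet.prod Set.finite_univ).image _)).subset h1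

theorem gsc_of (J : Bond → ℝ) (σ : (Fin 2 → ℤ) → ℝ) (h : IsGroundState J σ) :
    GSC (fun e => J (ce e)) (fun v => σ (cv v)) := by
  classical
  refine ⟨fun v => h.1 _, fun A hA => ?_⟩
  set ρ : (Fin 2 → ℤ) → ℝ := fun x => if x ∈ A.image cv then -σ x else σ x with hρ
  have hσ0 : ∀ x, σ x ≠ 0 := fun x => by rcases h.1 x with h1 | h1 <;> rw [h1] <;> norm_num
  have h1 : ∀ x, ρ x = 1 ∨ ρ x = -1 := by
    intro x
    simp only [hρ]
    split_ifs
    · rcases h.1 x with h1 | h1 <;> rw [h1] <;> simp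
    · exact h.1 x
  have h2 : {x | ρ x ≠ σ x}.Finite := by
    refine (A.image cv).finite_toSet.subset fun x hx => ?_
    by_contra hc
    apply hx
    simp only [hρ]
    rw [if_neg (by simpa using hc)]
  have h3 : ρ ≠ σ := by
    obtain ⟨v, hv⟩ := hA
    intro hc
    have h4 := congrFun hc (cv v)
    simp only [hρ] at h4
    rw [if_pos (Finset.mem_image_of_mem cv hv)] at h4
    have := hσ0 (cv v)
    apply this
    linarith
  have h4 := h.2 ρ h1 h2 h3
  have h5 : ∑ᶠ e : Bond, J e * (σ e.1 * σ (e.1 + (Pi.single e.2 (1 : ℤ) : Fin 2 → ℤ))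
      - ρ e.1 * ρ (e.1 + (Pi.single e.2 (1 : ℤ) : Fin 2 → ℤ))) =
      ∑ᶠ e : Edg, J (ce e) * (σ (cv (src e)) * σ (cv (tgt e)) -
        ρ (cv (src e)) * ρ (cv (tgt e))) := by
    refine (finsum_eq_of_bijective ce ce.bijective fun e => ?_).symm
    rw [ce_tgt, ce_src]
  rw [h5] at h4
  have h6 : ∀ e : Edg, J (ce e) * (σ (cv (src e)) * σ (cv (tgt e)) -
      ρ (cv (src e)) * ρ (cv (tgt e))) =
      if e ∈ cutE A then 2 * (J (ce e) * (σ (cv (src e)) * σ (cv (tgt e)))) else 0 := by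
    intro e
    have m1 : cv (src e) ∈ A.image cv ↔ src e ∈ A := by
      rw [Finset.mem_image]
      exact ⟨fun ⟨v, hv, hv'⟩ => by rwa [← cv_inj hv'], fun hv => ⟨_, hv, rfl⟩⟩
    have m2 : cv (tgt e) ∈ A.image cv ↔ tgt e ∈ A := by
      rw [Finset.mem_image]
      exact ⟨fun ⟨v, hv, hv'⟩ => by rwa [← cv_inj hv'], fun hv => ⟨_, hv, rfl⟩⟩
    simp only [hρ, m1, m2]
    unfold cutE
    simp only [Set.mem_setOf_eq]
    by_cases c1 : src e ∈ A <;> by_cases c2 : tgt e ∈ A <;> simp [c1, c2] <;> ring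
  rw [finsum_congr h6] at h4
  have h7 : ∑ᶠ e : Edg, (if e ∈ cutE A then 2 * (J (ce e) * (σ (cv (src e)) * σ (cv (tgt e))))
      else 0) = 2 * ∑ᶠ e ∈ cutE A, J (ce e) * (σ (cv (src e)) * σ (cv (tgt e))) := by
    rw [finsum_mem_eq_finite_toFinset_sum _ (cutE_finite A), Finset.mul_sum,
      finsum_eq_sum_of_support_subset (s := (cutE_finite A).toFinset)]
    · refine Finset.sum_congr rfl fun e he => ?_
      rw [if_pos ((cutE_finite A).mem_toFinset.1 he)]
    · intro e he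
      rw [Function.mem_support] at he
      rw [Finset.mem_coe, Set.Finite.mem_toFinset]
      by_contra hc
      exact he (if_neg hc)
  rw [h7] at h4
  linarith

theorem law_ce (μ : Measure ℝ) [IsProbabilityMeasure μ] :
    (Measure.infinitePi fun _ : Bond => μ).map (fun J e => J (ce e)) = PJ μ := by
  unfold PJ
  refine Measure.eq_infinitePi (μ := fun _ : Edg => μ) fun s t ht => ?_
  have hm : Measurable (fun (J : Bond → ℝ) (e : Edg) => J (ce e)) := by fun_prop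
  rw [Measure.map_apply hm (MeasurableSet.pi (Finset.countable_toSet s) fun i _ => ht i)]
  have h1 : (fun (J : Bond → ℝ) (e : Edg) => J (ce e)) ⁻¹' (Set.pi (s : Set Edg) t) =
      Set.pi ((s.map ce.toEmbedding : Finset Bond) : Set Bond) (fun b => t (ce.symm b)) := by
    ext J
    simp only [Set.mem_preimage, Set.mem_pi, Finset.mem_coe, Finset.mem_map,
      Equiv.coe_toEmbedding]
    constructor
    · rintro h b ⟨e, he, rfl⟩
      rw [Equiv.symm_apply_apply]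
      exact h e he
    · intro h e he
      have := h (ce e) ⟨e, he, rfl⟩
      rwa [Equiv.symm_apply_apply] at this
  rw [h1, Measure.infinitePi_pi _ (fun i _ => ht _), Finset.prod_map]
  refine Finset.prod_congr rfl fun e _ => ?_
  simp

theorem main (hFOR : S_FOR) (hPER : S_PER) (hLAW : S_LAW) (hMED : S_MED) (hSEP : S_SEP)
    (hSAT : S_SAT) (hLLN : S_LLN) (ε : ℝ) (hε : 0 < ε) : ∃ K δ : ℝ, 0 < K ∧ 0 < δ ∧
    ∀ (μ : Measure ℝ) [IsProbabilityMeasure μ], (∀ x, μ {x} = 0) →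
    (μ.prod μ).real {p : ℝ × ℝ | |p.1| ≤ K * |p.2| ∧ |p.2| ≤ K * |p.1|} ≤ δ →
    ∀ᵐ J ∂(Measure.infinitePi fun _ : Bond => μ), ∃ n₀ : ℕ, ∀ n : ℕ, n₀ ≤ n →
      ∀ σ τ : (Fin 2 → ℤ) → ℝ, IsGroundState J σ → IsGroundState J τ →
        ((disagree σ τ n).ncard : ℝ) ≤ ε * (2 * (2 * (n : ℝ) + 1) ^ 2) := by
  obtain ⟨K, δ, hK, hδ, h⟩ := Fin.near hFOR hPER hLAW hMED hSEP hSAT hLLN ε hε
  refine ⟨K, δ, hK, hδ, ?_⟩
  intro μ _ hat hμ
  have h1 := h μ hat hμ
  rw [← law_ce μ] at h1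
  have hm : Measurable (fun (J : Bond → ℝ) (e : Edg) => J (ce e)) := by fun_prop
  filter_upwards [ae_of_ae_map hm.aemeasurable h1] with J hJ
  obtain ⟨n₀, hn₀⟩ := hJ.exists_forall_of_atTop
  refine ⟨n₀, fun n hn σ τ hσ hτ => ?_⟩
  refine le_trans (le_of_eq ?_) (hn₀ n hn _ _ (gsc_of J σ hσ) (gsc_of J τ hτ))
  have h2 : disagree σ τ n = ce '' (Fin.Dis (fun v => σ (cv v)) (fun v => τ (cv v)) n) := by
    ext b
    rw [Set.mem_image_equiv]
    obtain ⟨e, rfl⟩ := ce.surjective b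
    rw [Equiv.symm_apply_apply]
    unfold disagree Fin.Dis
    simp only [Set.mem_setOf_eq, ce_tgt]
    rw [ce_src]
    refine and_congr ?_ Iff.rfl
    unfold Bf cv
    simp only [Finset.mem_product, Finset.mem_Icc, Fin.forall_fin_two, Matrix.cons_val_zero,
      Matrix.cons_val_one, abs_le]
  rw [h2, Set.ncard_image_of_injective _ ce.injective]

theorem main_pow (hFOR : S_FOR) (hPER : S_PER) (hLAW : S_LAW) (hMED : S_MED) (hSEP : S_SEP)
    (hSAT : S_SAT) (hLLN : S_LLN) (hPOW : S_POW) (ε : ℝ) (hε : 0 < ε) (μ : Measure ℝ)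
    [IsProbabilityMeasure μ] (hat : ∀ x, μ {x} = 0) : ∃ t₀ : ℝ, 0 < t₀ ∧ ∀ t : ℝ, t₀ ≤ t →
    ∀ᵐ J ∂(Measure.infinitePi fun _ : Bond => μ), ∃ n₀ : ℕ, ∀ n : ℕ, n₀ ≤ n →
      ∀ σ τ : (Fin 2 → ℤ) → ℝ, IsGroundState (fun e => Real.sign (J e) * |J e| ^ t) σ →
        IsGroundState (fun e => Real.sign (J e) * |J e| ^ t) τ →
        ((disagree σ τ n).ncard : ℝ) ≤ ε * (2 * (2 * (n : ℝ) + 1) ^ 2) := by
  obtain ⟨K, δ, hK, hδ, h⟩ := main hFOR hPER hLAW hMED hSEP hSAT hLLN ε hε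
  obtain ⟨t₀, ht₀, hp⟩ := hPOW μ hat K δ hK hδ
  refine ⟨t₀, ht₀, fun t ht => ?_⟩
  obtain ⟨p1, p2, p3⟩ := hp t ht
  have h1 := h (μ.map (pw t)) p2 p3
  have hm : Measurable (pw t) := by
    unfold pw
    have hs : Measurable Real.sign := by
      unfold Real.sign
      exact Measurable.ite measurableSet_Iio measurable_const
        (Measurable.ite measurableSet_Ioi measurable_const measurable_const)
    exact hs.mul ((measurable_norm).pow_const t)
  have h2 := Measure.infinitePi_map_pi (μ := fun _ : Bond => μ) (f := fun _ => pw t)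
    (fun _ => hm)
  rw [← h2] at h1
  have hm2 : Measurable (fun (J : Bond → ℝ) (e : Bond) => pw t (J e)) := by fun_prop
  exact ae_of_ae_map hm2.aemeasurable h1

end Pool.Agent.Y661.NU.Res
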