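import Pool.Agent.H974R2.Block

/-!
# Edwards-Anderson ground states on `ℤ²`: near uniqueness for widely spread couplings

Definitions and the statements of the parts (project NU, helper661).
Lattice of `Pool.Agent.H974R2`: `Vtx = ℤ × ℤ`, `Edg`, `src`, `tgt`, `Reach`, `boxE`, `Circ`, `Blk`, `Pr`.
-/

set_option autoImplicit false

open MeasureTheory Filter

namespace Pool.Agent.Y661.NU

open H974

/-- the vertices of the box of radius `M` -/
def Bx (M : ℕ) : Set Vtx := {v | |v.1| ≤ M ∧ |v.2| ≤ M}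

/-- the same as a finite set -/
noncomputable def Bf (M : ℕ) : Finset Vtx :=
  Finset.Icc (-(M : ℤ)) M ×ˢ Finset.Icc (-(M : ℤ)) M

/-- the edge boundary of a finite set of vertices -/
def cutE (A : Finset Vtx) : Set Edg :=
  {e | (src e ∈ A ∧ tgt e ∉ A) ∨ (src e ∉ A ∧ tgt e ∈ A)}

/-- `e` is the strongest edge of the boundary of a finite set contained in the box of radius `M` -/
def Top (a : Edg → ℝ) (M : ℕ) (e : Edg) : Prop :=
  ∃ A : Finset Vtx, (∀ v ∈ A, v ∈ Bx M) ∧ e ∈ cutE A ∧ ∀ f ∈ cutE A, f ≠ e → a f < a e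

/-- the edges of the box of radius `M` with `t < a e` -/
noncomputable def Fo (a : Edg → ℝ) (t : ℝ) (M : ℕ) : Finset Edg := by
  classical exact (boxE M).filter fun e => t < a e

/-- the percolation event: an open circuit and, outside it, a closed dual circuit -/
def Ev (M : ℕ) (F : Finset Edg) : Prop :=
  ∃ R1 R2 R3 R4 : ℕ, 1 ≤ R1 ∧ R1 < R2 ∧ R2 ≤ R3 ∧ R3 < R4 ∧ R4 < M ∧
    Circ R1 R2 F ∧ Blk R3 R4 F

/-- the values of `a` on the edges of the box of radius `M + 1` are distinct -/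
def Inj (a : Edg → ℝ) (M : ℕ) : Prop :=
  ∀ e ∈ boxE (M + 1), ∀ f ∈ boxE (M + 1), e ≠ f → a e ≠ a f

/-- the deterministic part: in the percolation event the sites `u`, `v` near the origin are joined
by strongest edges of finite cuts -/
def S_FOR : Prop := ∀ (a : Edg → ℝ) (t : ℝ) (M : ℕ), Inj a M → Ev M (Fo a t M) →
  ∀ u v : Vtx, u ∈ Bx 1 → v ∈ Bx 1 → Reach {e | Top a M e} u v

/-- the percolation event has high probability at the self-dual point -/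
def S_PER : Prop := ∀ ε : ℝ, 0 < ε → ∃ M : ℕ, 1 - ε ≤ Pr (fun _ => (1 / 2 : ℝ)) (boxE M) (Ev M)

/-- the law of iid couplings -/
noncomputable def PJ (μ : Measure ℝ) : Measure (Edg → ℝ) := Measure.infinitePi fun _ : Edg => μ

instance (μ : Measure ℝ) [IsProbabilityMeasure μ] : IsProbabilityMeasure (PJ μ) := by
  unfold PJ; infer_instance

/-- law of the strong edges -/
def S_LAW : Prop := ∀ (μ : Measure ℝ) [IsProbabilityMeasure μ] (t : ℝ),
  μ.real {x | t < |x|} = 1 / 2 → ∀ (M : ℕ) (E : Finset Edg → Prop),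
  MeasurableSet {J : Edg → ℝ | E (Fo (fun e => |J e|) t M)} ∧
  (PJ μ).real {J : Edg → ℝ | E (Fo (fun e => |J e|) t M)} =
    Pr (fun _ => (1 / 2 : ℝ)) (boxE M) E

/-- the median of the absolute value -/
def S_MED : Prop := ∀ (μ : Measure ℝ) [IsProbabilityMeasure μ], (∀ x, μ {x} = 0) →
  ∃ t : ℝ, μ.real {x | t < |x|} = 1 / 2

/-- separation of the couplings in the box of radius `M + 1` -/
def Sep (J : Edg → ℝ) (K : ℝ) (M : ℕ) : Prop :=
  ∀ e ∈ boxE (M + 1), ∀ f ∈ boxE (M + 1), e ≠ f → K * |J e| < |J f| ∨ K * |J f| < |J e|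

def S_SEP : Prop := ∀ (μ : Measure ℝ) [IsProbabilityMeasure μ] (K δ : ℝ),
  (μ.prod μ).real {p : ℝ × ℝ | |p.1| ≤ K * |p.2| ∧ |p.2| ≤ K * |p.1|} ≤ δ → ∀ M : ℕ,
  MeasurableSet {J : Edg → ℝ | Sep J K M} ∧
  (PJ μ).real {J : Edg → ℝ | ¬ Sep J K M} ≤ ((boxE (M + 1)).card : ℝ) ^ 2 * δ

/-- the condition on a ground state: every finite set has positive boundary energy -/
def GSC (J : Edg → ℝ) (σ : Vtx → ℝ) : Prop :=
  (∀ v, σ v = 1 ∨ σ v = -1) ∧
  ∀ A : Finset Vtx, A.Nonempty → 0 < ∑ᶠ e ∈ cutE A, J e * (σ (src e) * σ (tgt e))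

/-- strongest edges of finite cuts are satisfied in all ground states -/
def S_SAT : Prop := ∀ (J : Edg → ℝ) (K : ℝ) (M : ℕ), ((boxE (M + 1)).card : ℝ) ≤ K →
  Sep J K M → ∀ σ τ : Vtx → ℝ, GSC J σ → GSC J τ → ∀ u v : Vtx,
  Reach {e | Top (fun e => |J e|) M e} u v → σ u * σ v = τ u * τ v

/-- translation of the couplings -/
def sh (v : Vtx) (J : Edg → ℝ) : Edg → ℝ := fun e => J (e.1 + v.1, e.2.1 + v.2, e.2.2)

/-- law of large numbers for a local event -/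
def S_LLN : Prop := ∀ (μ : Measure ℝ) [IsProbabilityMeasure μ] (M : ℕ) (B : Set (Edg → ℝ)),
  MeasurableSet B → (∀ J J' : Edg → ℝ, (∀ e ∈ boxE (M + 1), J e = J' e) → J ∈ B → J' ∈ B) →
  ∀ η : ℝ, 0 < η → ∀ᵐ J ∂(PJ μ), ∀ᶠ n : ℕ in atTop,
    (({v ∈ (Bf n : Set Vtx) | sh v J ∈ B}).ncard : ℝ) ≤
      ((PJ μ).real B + η) * (2 * (n : ℝ) + 1) ^ 2

/-- powers of a law become widely spread -/
noncomputable def pw (t x : ℝ) : ℝ := Real.sign x * |x| ^ t

def S_POW : Prop := ∀ (μ : Measure ℝ) [IsProbabilityMeasure μ], (∀ x, μ {x} = 0) →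
  ∀ K δ : ℝ, 0 < K → 0 < δ → ∃ t₀ : ℝ, 0 < t₀ ∧ ∀ t : ℝ, t₀ ≤ t →
    IsProbabilityMeasure (μ.map (pw t)) ∧ (∀ x, (μ.map (pw t)) {x} = 0) ∧
    ((μ.map (pw t)).prod (μ.map (pw t))).real
      {p : ℝ × ℝ | |p.1| ≤ K * |p.2| ∧ |p.2| ≤ K * |p.1|} ≤ δ

end Pool.Agent.Y661.NU
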